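import Pool.Agent.Q236.XI.Defs

/-!
# Continuous equivariant maps to the join of two copies of `G`
-/

set_option autoImplicit false

open scoped Pointwise Topology

namespace Pool.Agent.Q236.XI

variable {G : Type} [Group G]

theorem continuous_pwl (a : ℤ → ℝ) :
    Continuous (fun s : ℝ => (1 - Int.fract s) * a ⌊s⌋ + Int.fract s * a (⌊s⌋ + 1)) := by
  apply LocallyFinite.continuous (f := fun m : ℤ => Set.Icc (m : ℝ) (m + 1))
  · intro x
    refine ⟨Metric.ball x 1, Metric.ball_mem_nhds x one_pos, ?_⟩
    apply (Set.finite_Icc (⌊x⌋ - 3) (⌊x⌋ + 3)).subset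
    rintro m ⟨y, hy1, hy2⟩
    rw [Metric.mem_ball, Real.dist_eq, abs_lt] at hy2
    obtain ⟨h1, h2⟩ := hy1
    have h3 := Int.floor_le x
    have h4 := Int.lt_floor_add_one x
    constructor
    · have : ((⌊x⌋ - 3 : ℤ) : ℝ) < (m : ℝ) := by
        push_cast
        linarith
      exact_mod_cast this.le
    · have : (m : ℝ) < ((⌊x⌋ + 3 : ℤ) : ℝ) := by
        push_cast
        linarith
      exact_mod_cast this.le
  · rw [Set.eq_univ_iff_forall]
    intro x
    rw [Set.mem_iUnion]
    exact ⟨⌊x⌋, Int.floor_le x, (Int.lt_floor_add_one x).le⟩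
  · intro m
    exact isClosed_Icc
  · intro m
    have hcont : ContinuousOn (fun s : ℝ => (1 - (s - m)) * a m + (s - m) * a (m + 1))
        (Set.Icc (m : ℝ) (m + 1)) := by fun_prop
    refine hcont.congr ?_
    rintro s ⟨h1, h2⟩
    rcases h2.lt_or_eq with h3 | h3
    · have : ⌊s⌋ = m := by
        rw [Int.floor_eq_iff]
        exact ⟨h1, h3⟩
      have h4 : Int.fract s = s - m := by
        rw [Int.fract, this]
      simp only [this, h4]
    · have h4 : ⌊s⌋ = m + 1 := by
        rw [h3, Int.floor_eq_iff]
        push_cast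
        exact ⟨le_refl _, by linarith⟩
      have h5 : Int.fract s = 0 := by
        rw [Int.fract, h4, h3]
        push_cast
        ring
      simp only [h4, h5]
      rw [h3]
      ring

/-- the vertices of the path -/
def vtx (h : G) (m : ℤ) : Fin 2 × G := (if Even m then 0 else 1, h ^ (m / 2))

theorem vtx_add_two (h : G) (m : ℤ) : vtx h (m + 2) = ((vtx h m).1, h * (vtx h m).2) := by
  unfold vtx
  have h1 : (m + 2) / 2 = 1 + m / 2 := by omega
  have h2 : Even (m + 2) ↔ Even m := by
    rw [Int.even_add]
    simp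
  rw [h1, zpow_add, zpow_one]
  simp only [h2]

theorem vtx_parity (h : G) (m : ℤ) : (vtx h m).1 ≠ (vtx h (m + 1)).1 := by
  unfold vtx
  by_cases h1 : Even m
  · have h2 : ¬ Even (m + 1) := by
      rw [Int.even_add_one]
      simpa using h1
    simp [h1, h2]
  · have h2 : Even (m + 1) := by
      rw [Int.even_add_one]
      exact h1
    simp [h1, h2]

variable [Finite G]

open scoped Classical in
/-- the path, in coordinates -/
noncomputable def gam (h : G) (s : ℝ) (c : Fin 2 × G) : ℝ :=
  (1 - Int.fract s) * (if vtx h ⌊s⌋ = c then 1 else 0) +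
    Int.fract s * (if vtx h (⌊s⌋ + 1) = c then 1 else 0)

theorem gam_nonneg (h : G) (s : ℝ) (c : Fin 2 × G) : 0 ≤ gam h s c := by
  unfold gam
  have h1 := Int.fract_nonneg s
  have h2 := (Int.fract_lt_one s).le
  have h3 : 0 ≤ 1 - Int.fract s := by linarith
  split_ifs <;> simp <;> linarith

theorem gam_sum (h : G) (s : ℝ) : ∑ᶠ c, gam h s c = 1 := by
  classical
  letI : Fintype G := Fintype.ofFinite G
  rw [finsum_eq_sum_of_fintype]
  unfold gam
  rw [Finset.sum_add_distrib, ← Finset.mul_sum, ← Finset.mul_sum]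
  rw [Finset.sum_ite_eq, Finset.sum_ite_eq]
  simp

theorem gam_support (h : G) (s : ℝ) (c : Fin 2 × G) (hc : c ∈ Function.support (gam h s)) :
    c = vtx h ⌊s⌋ ∨ c = vtx h (⌊s⌋ + 1) := by
  classical
  by_contra hcon
  push Not at hcon
  apply hc
  unfold gam
  rw [if_neg (Ne.symm hcon.1), if_neg (Ne.symm hcon.2)]
  ring

theorem gam_face (h : G) (s : ℝ) : Function.support (gam h s) ∈ (E G 1).faces := by
  constructor
  · by_contra hcon
    rw [Set.not_nonempty_iff_eq_empty, Function.support_eq_empty_iff] at hcon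
    have := gam_sum h s
    rw [hcon] at this
    simp at this
  · intro a ha b hb hab
    have hp := vtx_parity h ⌊s⌋
    rcases gam_support h s a ha with h1 | h1 <;> rcases gam_support h s b hb with h2 | h2
    · rw [h1, h2]
    · rw [h1, h2] at hab
      exact absurd hab hp
    · rw [h1, h2] at hab
      exact absurd hab.symm hp
    · rw [h1, h2]

/-- the path in the realisation of the join -/
noncomputable def gamR (h : G) (s : ℝ) : (E G 1).Real :=
  ⟨gam h s, gam_nonneg h s, gam_sum h s, gam_face h s⟩

theorem continuous_gamR (h : G) : Continuous (gamR h) := by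
  classical
  apply Continuous.subtype_mk
  apply continuous_pi
  intro c
  exact continuous_pwl (fun m => if vtx h m = c then 1 else 0)

theorem gamR_add_two (h : G) (s : ℝ) : gamR h (s + 2) = h • gamR h s := by
  classical
  apply Subtype.ext
  funext c
  rw [GCplx.smul_val]
  have e1 : ⌊s + 2⌋ = ⌊s⌋ + 2 := by
    rw [show (2 : ℝ) = ((2 : ℤ) : ℝ) by norm_num, Int.floor_add_intCast]
  have e2 : Int.fract (s + 2) = Int.fract s := by
    rw [show (2 : ℝ) = ((2 : ℤ) : ℝ) by norm_num, Int.fract_add_intCast]
  have e3 : ∀ m : ℤ, (vtx h (m + 2) = c) ↔ (vtx h m = (c.1, h⁻¹ * c.2)) := by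
    intro m
    rw [vtx_add_two, Prod.ext_iff, Prod.ext_iff]
    simp only
    rw [eq_inv_mul_iff_mul_eq]
  change gam h (s + 2) c = gam h s (c.1, h⁻¹ * c.2)
  unfold gam
  have e4 : ⌊s⌋ + 2 + 1 = ⌊s⌋ + 1 + 2 := by ring
  rw [e1, e2, e4]
  simp only [e3]

theorem gamR_add_two_mul (h : G) (s : ℝ) (a : ℕ) : gamR h (s + 2 * a) = h ^ a • gamR h s := by
  induction a with
  | zero => simp
  | succ a ih =>
    have : s + 2 * ((a + 1 : ℕ) : ℝ) = s + 2 * a + 2 := by
      push_cast
      ring
    rw [this, gamR_add_two, ih, ← mul_smul, ← pow_succ']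

theorem continuous_smul_real (K : GCplx G) (g : G) : Continuous (fun x : K.Real => g • x) := by
  apply Continuous.subtype_mk
  apply continuous_pi
  intro v
  exact (continuous_apply _).comp continuous_subtype_val

/-- coherent data give a continuous equivariant map -/
theorem exists_map (K : GCplx G) (h : G) (g₀ : K.V → G) (P : K.V → ℝ) (D : K.V → K.V → ℝ)
    (e1 : ∀ (x : G) (v : K.V), g₀ (x • v) = x * g₀ v ∧ P (x • v) = P v)
    (e2 : ∀ (x : G) (v w : K.V), D (x • v) (x • w) = D v w)
    (e3 : ∀ s ∈ K.faces, ∀ v ∈ s, ∀ w ∈ s,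
      (∀ t : ℝ, g₀ v • gamR h (P v + D v w + t) = g₀ w • gamR h (P w + t)) ∧
        ∀ u ∈ s, D v w + D w u = D v u) :
    ∃ f : K.Real → (E G 1).Real, Continuous f ∧ ∀ (g : G) (x : K.Real), f (g • x) = g • f x := by
  classical
  letI : Fintype K.V := Fintype.ofFinite K.V
  have hne : ∀ x : K.Real, ∃ v, v ∈ Function.support x.1 :=
    fun x => K.nonempty_of_mem _ x.2.2.2
  choose b hb using hne
  set F : K.V → K.Real → (E G 1).Real := fun v x =>
    g₀ v • gamR h (P v + ∑ w, x.1 w * D v w) with hF
  have hsum : ∀ x : K.Real, ∑ w, x.1 w = 1 := by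
    intro x
    rw [← finsum_eq_sum_of_fintype]
    exact x.2.2.1
  have key : ∀ (s : Set K.V) (x : K.Real), s ∈ K.faces → Function.support x.1 ⊆ s →
      ∀ v ∈ s, ∀ w ∈ s, F v x = F w x := by
    intro s x hs hx v hv w hw
    obtain ⟨h1, h2⟩ := e3 s hs v hv w hw
    have h3 : ∑ u, x.1 u * D v u = D v w + ∑ u, x.1 u * D w u := by
      have : ∀ u, x.1 u * D v u = x.1 u * D v w + x.1 u * D w u := by
        intro u
        by_cases hu : u ∈ s
        · rw [← h2 u hu]
          ring
        · have : x.1 u = 0 := by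
            by_contra hcon
            exact hu (hx hcon)
          rw [this]
          ring
      rw [Finset.sum_congr rfl (fun u _ => this u), Finset.sum_add_distrib, ← Finset.sum_mul,
        hsum x, one_mul]
    rw [hF]
    simp only
    rw [h3, ← add_assoc, h1]
  refine ⟨fun x => F (b x) x, ?_, ?_⟩
  · have hcF : ∀ v, Continuous (F v) := by
      intro v
      rw [hF]
      apply (continuous_smul_real (E G 1) (g₀ v)).comp
      apply (continuous_gamR h).comp
      apply continuous_const.add
      apply continuous_finsetSum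
      intro w _
      exact ((continuous_apply w).comp continuous_subtype_val).mul continuous_const
    apply LocallyFinite.continuous
      (f := fun s : K.F => {x : K.Real | Function.support x.1 ⊆ s.1})
    · exact locallyFinite_of_finite _
    · rw [Set.eq_univ_iff_forall]
      intro x
      rw [Set.mem_iUnion]
      exact ⟨⟨_, x.2.2.2⟩, Set.Subset.refl _⟩
    · intro s
      have : {x : K.Real | Function.support x.1 ⊆ s.1} =
          ⋂ v ∈ (s.1)ᶜ, {x : K.Real | x.1 v = 0} := by
        ext x
        simp only [Set.mem_ofPred_eq, Set.mem_iInter, Set.mem_compl_iff]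
        constructor
        · intro hx v hv
          by_contra hcon
          exact hv (hx hcon)
        · intro hx v hv
          by_contra hcon
          exact hv (hx v hcon)
      rw [this]
      apply isClosed_biInter
      intro v _
      exact isClosed_eq ((continuous_apply v).comp continuous_subtype_val) continuous_const
    · intro s
      obtain ⟨v, hv⟩ := K.nonempty_of_mem s.1 s.2
      refine (hcF v).continuousOn.congr ?_
      intro x hx
      exact key s.1 x s.2 hx (b x) (hx (hb x)) v hv
  · intro g x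
    have h1 : g • b x ∈ Function.support (g • x).1 := by
      rw [Function.mem_support, GCplx.smul_val, inv_smul_smul]
      exact hb x
    have h2 := key _ (g • x) (g • x).2.2.2 subset_rfl (b (g • x)) (hb _) (g • b x) h1
    change F (b (g • x)) (g • x) = g • F (b x) x
    rw [h2, hF]
    simp only
    rw [(e1 g (b x)).1, (e1 g (b x)).2, mul_smul]
    congr 3
    have h3 : ∑ w, (g • x).1 w * D (g • b x) w = ∑ w, x.1 (g⁻¹ • w) * D (b x) (g⁻¹ • w) := by
      apply Finset.sum_congr rfl
      intro w _
      rw [GCplx.smul_val]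
      congr 1
      conv_lhs => rw [← smul_inv_smul g w]
      rw [e2]
    rw [h3]
    congr 1
    exact Fintype.sum_equiv (MulAction.toPerm g⁻¹) (fun w => x.1 (g⁻¹ • w) * D (b x) (g⁻¹ • w))
      (fun w => x.1 w * D (b x) w) (fun _ => rfl)

end Pool.Agent.Q236.XI
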