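import Pool.Agent.Q236.XI.Defs

/-!
# Integral cochains from equivariant poset maps
-/

set_option autoImplicit false

open scoped Pointwise

namespace Pool.Agent.Q236.XI

variable {G : Type} [Group G]

/-- A closed integral cochain, invariant under `h`, which lifts the differences of a labelling of
the vertices by `ZMod p` on which `h` acts by adding `1`, with values at most `B`. -/
def Good (h : G) (p : ℕ) (K : GCplx G) (B : ℤ) : Prop :=
  ∃ (lam : K.V → ZMod p) (c : K.V → K.V → ℤ), (∀ v, lam (h • v) = lam v + 1) ∧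
    ∀ s ∈ K.faces, ∀ u ∈ s, ∀ v ∈ s, ((c u v : ℤ) : ZMod p) = lam v - lam u ∧ |c u v| ≤ B ∧
      c (h • u) (h • v) = c u v ∧ ∀ w ∈ s, c u v + c v w = c u w

theorem chain3 {K : GCplx G} {a b c : K.F} (hab : a ≤ b) (hbc : b ≤ c) :
    ({a, b, c} : Set K.F) ∈ K.sd.faces := by
  refine ⟨⟨a, by simp⟩, ?_⟩
  intro x hx y hy hxy
  simp only [Set.mem_insert_iff, Set.mem_singleton_iff] at hx hy
  rcases hx with rfl | rfl | rfl <;> rcases hy with rfl | rfl | rfl
  · exact absurd rfl hxy
  · exact Or.inl hab
  · exact Or.inl (hab.trans hbc)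
  · exact Or.inr hab
  · exact absurd rfl hxy
  · exact Or.inl hbc
  · exact Or.inr (hab.trans hbc)
  · exact Or.inr hbc
  · exact absurd rfl hxy

/-- a vertex as a face -/
def pt (K : GCplx G) (v : K.V) : K.F := ⟨{v}, K.sing v⟩

theorem pt_smul (K : GCplx G) (h : G) (v : K.V) : pt K (h • v) = h • pt K v := by
  apply Subtype.ext
  change ({h • v} : Set K.V) = h • ({v} : Set K.V)
  rw [Set.smul_set_singleton]

open scoped Classical in
theorem Good.descend {h : G} {p : ℕ} {K : GCplx G} {B : ℤ} (H : Good h p K.sd B) :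
    Good h p K (2 * B) := by
  obtain ⟨lam, c, hlam, hc⟩ := H
  change K.F → ZMod p at lam
  change K.F → K.F → ℤ at c
  set c₁ : K.V → K.V → ℤ := fun u v =>
    if hyp : ({u, v} : Set K.V) ∈ K.faces then
      c (pt K u) ⟨{u, v}, hyp⟩ + c ⟨{u, v}, hyp⟩ (pt K v) else 0 with hc₁
  have hpt : ∀ (S : K.F) (v : K.V), v ∈ S.1 → pt K v ≤ S := by
    intro S v hv x hx
    have : x = v := hx
    rw [this]
    exact hv
  have key : ∀ (S : K.F) (u v : K.V), u ∈ S.1 → v ∈ S.1 →
      c₁ u v = c (pt K u) S + c S (pt K v) := by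
    intro S u v hu hv
    have hsub : ({u, v} : Set K.V) ⊆ S.1 := by
      intro x hx
      rcases hx with rfl | hx
      · exact hu
      · rw [Set.mem_singleton_iff] at hx
        rw [hx]
        exact hv
    have hyp : ({u, v} : Set K.V) ∈ K.faces := K.down S.1 S.2 _ hsub ⟨u, by simp⟩
    have e1 : c₁ u v = c (pt K u) ⟨{u, v}, hyp⟩ + c ⟨{u, v}, hyp⟩ (pt K v) := by
      rw [hc₁]
      simp only [hyp, dif_pos]
    set e : K.F := ⟨{u, v}, hyp⟩ with he
    have heS : e ≤ S := hsub
    have hu' : pt K u ≤ e := hpt e u (by simp [he])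
    have hv' : pt K v ≤ e := hpt e v (by simp [he])
    have C1 := hc _ (chain3 hu' heS)
    have C2 := hc _ (chain3 hv' heS)
    have a1 := (C1 (pt K u) (Or.inl rfl) e (Or.inr (Or.inl rfl))).2.2.2 S (Or.inr (Or.inr rfl))
    have a2 := (C2 S (Or.inr (Or.inr rfl)) e (Or.inr (Or.inl rfl))).2.2.2 (pt K v) (Or.inl rfl)
    have a3 := (C1 e (Or.inr (Or.inl rfl)) S (Or.inr (Or.inr rfl))).2.2.2 e (Or.inr (Or.inl rfl))
    have a4 := (C1 e (Or.inr (Or.inl rfl)) e (Or.inr (Or.inl rfl))).2.2.2 e (Or.inr (Or.inl rfl))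
    rw [e1]
    linarith
  refine ⟨fun v => lam (pt K v), c₁, ?_, ?_⟩
  · intro v
    change lam (pt K (h • v)) = lam (pt K v) + 1
    rw [pt_smul]
    exact hlam (pt K v)
  · intro s hs u hu v hv
    set S : K.F := ⟨s, hs⟩ with hS
    have C1 := hc _ (chain3 (hpt S u hu) (le_refl S))
    have C2 := hc _ (chain3 (hpt S v hv) (le_refl S))
    have b1 := C1 (pt K u) (Or.inl rfl) S (Or.inr (Or.inl rfl))
    have b2 := C2 S (Or.inr (Or.inl rfl)) (pt K v) (Or.inl rfl)
    have k1 := key S u v hu hv
    refine ⟨?_, ?_, ?_, ?_⟩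
    · rw [k1, Int.cast_add, b1.1, b2.1]
      ring
    · rw [k1]
      have := abs_add_le (c (pt K u) S) (c S (pt K v))
      linarith [b1.2.1, b2.2.1]
    · have k2 := key (h • S) (h • u) (h • v) (Set.smul_mem_smul_set hu) (Set.smul_mem_smul_set hv)
      rw [k1, k2, pt_smul, pt_smul]
      have i1 : c (h • pt K u) (h • S) = c (pt K u) S := b1.2.2.1
      have i2 : c (h • S) (h • pt K v) = c S (pt K v) := b2.2.2.1
      rw [i1, i2]
    · intro w hw
      rw [k1, key S v w hv hw, key S u w hu hw]
      have a3 := (C2 S (Or.inr (Or.inl rfl)) (pt K v) (Or.inl rfl)).2.2.2 S (Or.inr (Or.inl rfl))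
      have a4 := (C2 S (Or.inr (Or.inl rfl)) S (Or.inr (Or.inl rfl))).2.2.2 S (Or.inr (Or.inl rfl))
      linarith

theorem Good.iter {h : G} {p : ℕ} {K : GCplx G} (r : ℕ) : ∀ {B : ℤ},
    Good h p (GCplx.sd^[r] K) B → Good h p K (2 ^ r * B) := by
  induction r with
  | zero =>
    intro B H
    simpa using H
  | succ r ih =>
    intro B H
    rw [Function.iterate_succ_apply'] at H
    have := ih H.descend
    rw [pow_succ, mul_assoc]
    exact this

/-- a labelling of `G` by `ZMod (orderOf h)` on which left multiplication by `h` adds `1` -/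
theorem exists_label (h : G) :
    ∃ lam : G → ZMod (orderOf h), ∀ g, lam (h * g) = lam g + 1 := by
  classical
  set R := QuotientGroup.rightRel (Subgroup.zpowers h) with hR
  have hex : ∀ g : G, ∃ k : ℤ, g = h ^ k * (Quotient.mk R g).out := by
    intro g
    have h1 : R (Quotient.mk R g).out g := Quotient.exact (Quotient.out_eq (Quotient.mk R g))
    rw [hR, QuotientGroup.rightRel_apply, Subgroup.mem_zpowers_iff] at h1
    obtain ⟨k, hk⟩ := h1
    refine ⟨k, ?_⟩
    rw [hR, hk]
    group
  choose k hk using hex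
  refine ⟨fun g => ((k g : ℤ) : ZMod (orderOf h)), fun g => ?_⟩
  have h2 : Quotient.mk R (h * g) = Quotient.mk R g := by
    apply Quotient.sound
    change R (h * g) g
    rw [hR, QuotientGroup.rightRel_apply, Subgroup.mem_zpowers_iff]
    exact ⟨-1, by group⟩
  have h3 := hk (h * g)
  rw [h2] at h3
  have h4 := hk g
  have h5 : h ^ (k (h * g)) = h ^ (k g + 1) := by
    have : h ^ (k (h * g)) * (Quotient.mk R g).out = h ^ (k g + 1) * (Quotient.mk R g).out := by
      rw [← h3, add_comm, zpow_add, zpow_one, mul_assoc, ← h4]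
    exact mul_right_cancel this
  rw [zpow_eq_zpow_iff_modEq] at h5
  have h6 := (ZMod.intCast_eq_intCast_iff (k (h * g)) (k g + 1) (orderOf h)).mpr h5
  change ((k (h * g) : ℤ) : ZMod (orderOf h)) = ((k g : ℤ) : ZMod (orderOf h)) + 1
  rw [h6]
  push_cast
  rfl

theorem good_of_map [Finite G] (h : G) (K : GCplx G) (n : ℕ) (hn : n ≤ 1)
    (f : K.F → G × Fin (n + 1)) (hf : ∀ s t, s ≤ t → f s = f t ∨ (f s).2 < (f t).2)
    (hfe : ∀ (g : G) (s : K.F), f (g • s) = (g * (f s).1, (f s).2)) :
    Good h (orderOf h) K.sd (orderOf h) := by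
  obtain ⟨L, hL⟩ := exists_label h
  have : NeZero (orderOf h) := ⟨(orderOf_pos h).ne'⟩
  set c : K.F → K.F → ℤ := fun s t =>
    if (f s).2 < (f t).2 then ((L (f t).1 - L (f s).1).val : ℤ)
    else if (f t).2 < (f s).2 then -((L (f s).1 - L (f t).1).val : ℤ) else 0 with hc
  refine ⟨fun s => L (f s).1, c, ?_, ?_⟩
  · intro v
    have e1 := congrArg Prod.fst (hfe h v)
    exact (congrArg L e1).trans (hL _)
  · intro C hC
    have heq : ∀ s ∈ C, ∀ t ∈ C, (f s).2 = (f t).2 → f s = f t := by
      intro s hs t ht hst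
      rcases hC.2.total hs ht with h1 | h1
      · rcases hf s t h1 with h2 | h2
        · exact h2
        · exact absurd hst h2.ne
      · rcases hf t s h1 with h2 | h2
        · exact h2.symm
        · exact absurd hst h2.ne'
    intro s hs t ht
    have hinv : c (h • (s : K.F)) (h • (t : K.F)) = c s t := by
      have e1 : (f (h • (s : K.F))).1 = h * (f s).1 := by
        have := congrArg Prod.fst (hfe h s)
        exact this
      have e2 : (f (h • (t : K.F))).1 = h * (f t).1 := by
        have := congrArg Prod.fst (hfe h t)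
        exact this
      have e3 : (f (h • (s : K.F))).2 = (f s).2 := by
        have := congrArg Prod.snd (hfe h s)
        exact this
      have e4 : (f (h • (t : K.F))).2 = (f t).2 := by
        have := congrArg Prod.snd (hfe h t)
        exact this
      have g1 : L (f (h • (t : K.F))).1 - L (f (h • (s : K.F))).1 = L (f t).1 - L (f s).1 := by
        rw [e1, e2, hL, hL]
        ring
      have g2 : L (f (h • (s : K.F))).1 - L (f (h • (t : K.F))).1 = L (f s).1 - L (f t).1 := by
        rw [e1, e2, hL, hL]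
        ring
      rw [hc]
      simp only
      rw [g1, g2, e3, e4]
    refine ⟨?_, ?_, hinv, ?_⟩
    · rw [hc]
      simp only
      split_ifs with h1 h2
      · simp
      · simp
      · have : (f s).2 = (f t).2 := le_antisymm (not_lt.mp h2) (not_lt.mp h1)
        rw [heq s hs t ht this]
        simp
    · rw [hc]
      simp only
      have hv : ∀ a : ZMod (orderOf h), (a.val : ℤ) ≤ orderOf h := by
        intro a
        exact_mod_cast (ZMod.val_lt a).le
      split_ifs with h1 h2
      · rw [abs_of_nonneg (by positivity)]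
        exact hv _
      · rw [abs_neg, abs_of_nonneg (by positivity)]
        exact hv _
      · simp
    · intro u hu
      have hl : ∀ x : K.F, ((f x).2 : ℕ) = 0 ∨ ((f x).2 : ℕ) = 1 := by
        intro x
        have := (f x).2.2
        omega
      have hst := heq s hs t ht
      have htu := heq t ht u hu
      have hsu := heq s hs u hu
      rw [hc]
      simp only [Fin.lt_def]
      rcases hl s with h1 | h1 <;> rcases hl t with h2 | h2 <;> rcases hl u with h3 | h3
      · simp [h1, h2, h3]
      · have e := hst (Fin.ext (by rw [h1, h2]))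
        simp [h1, h2, h3, e]
      · have e := hsu (Fin.ext (by rw [h1, h3]))
        simp [h1, h2, h3, e]
      · have e := htu (Fin.ext (by rw [h2, h3]))
        simp [h1, h2, h3, e]
      · have e := htu (Fin.ext (by rw [h2, h3]))
        simp [h1, h2, h3, e]
      · have e := hsu (Fin.ext (by rw [h1, h3]))
        simp [h1, h2, h3, e]
      · have e := hst (Fin.ext (by rw [h1, h2]))
        simp [h1, h2, h3, e]
      · simp [h1, h2, h3]

end Pool.Agent.Q236.XI
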