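import Pool.Agent.Q236.XI.Cochain
import Pool.Agent.Q236.XI.Circle

/-!
# The complex

A circle `X` with three edges per fundamental domain, an annulus joining it to a circle `Y` with
`3 N` edges per fundamental domain, and the mapping cylinder of a map of degree `N` from `Y` to a
circle `Z` with three edges per fundamental domain.
-/

set_option autoImplicit false

open scoped Pointwise

namespace Pool.Agent.Q236.XI

variable {G : Type} [Group G]

/-- the orbits of vertices -/
abbrev Lab (N : ℕ) : Type := Fin 3 ⊕ (Fin (3 * N) ⊕ Fin 3)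

/-- the vertices of the first circle -/
def pX (h : G) (N : ℕ) (g : G) (m : ℕ) : G × Lab N :=
  (g * h ^ (m / 3), Sum.inl ⟨m % 3, Nat.mod_lt _ (by norm_num)⟩)

/-- the vertices of the second circle -/
def pY (h : G) {N : ℕ} (hN : 0 < N) (g : G) (m : ℕ) : G × Lab N :=
  (g * h ^ (m / (3 * N)), Sum.inr (Sum.inl ⟨m % (3 * N), Nat.mod_lt _ (by omega)⟩))

/-- the vertices of the third circle -/
def pZ (h : G) (N : ℕ) (g : G) (m : ℕ) : G × Lab N :=
  (g * h ^ (m / 3), Sum.inr (Sum.inr ⟨m % 3, Nat.mod_lt _ (by norm_num)⟩))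

/-- the triangles -/
inductive Tri (h : G) {N : ℕ} (hN : 0 < N) : Set (G × Lab N) → Prop
  | t1 (g : G) (n : ℕ) : Tri h hN {pY h hN g n, pY h hN g (n + 1), pZ h N g n}
  | t2 (g : G) (n : ℕ) : Tri h hN {pY h hN g (n + 1), pZ h N g n, pZ h N g (n + 1)}
  | t3 (g : G) (j n : ℕ) (h1 : j * N ≤ n) (h2 : n < (j + 1) * N) :
      Tri h hN {pX h N g j, pY h hN g n, pY h hN g (n + 1)}
  | t4 (g : G) (j : ℕ) : Tri h hN {pX h N g j, pX h N g (j + 1), pY h hN g ((j + 1) * N)}

/-- left multiplication on the first coordinate -/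
@[reducible] def labAct (G : Type) [Group G] (N : ℕ) : MulAction G (G × Lab N) where
  smul g a := (g * a.1, a.2)
  one_smul a := by
    change (1 * a.1, a.2) = a
    simp
  mul_smul g k a := by
    change (g * k * a.1, a.2) = (g * (k * a.1), a.2)
    rw [mul_assoc]

theorem mul_pX (h : G) (N : ℕ) (x g : G) (m : ℕ) :
    ((x * (pX h N g m).1, (pX h N g m).2) : G × Lab N) = pX h N (x * g) m := by
  unfold pX
  simp [mul_assoc]

theorem mul_pY (h : G) {N : ℕ} (hN : 0 < N) (x g : G) (m : ℕ) :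
    ((x * (pY h hN g m).1, (pY h hN g m).2) : G × Lab N) = pY h hN (x * g) m := by
  unfold pY
  simp [mul_assoc]

theorem mul_pZ (h : G) (N : ℕ) (x g : G) (m : ℕ) :
    ((x * (pZ h N g m).1, (pZ h N g m).2) : G × Lab N) = pZ h N (x * g) m := by
  unfold pZ
  simp [mul_assoc]

/-- The complex. -/
def KC [Finite G] (h : G) {N : ℕ} (hN : 0 < N) : GCplx G where
  V := G × Lab N
  act := labAct G N
  faces := {s | s.Nonempty ∧ ∃ τ, Tri h hN τ ∧ s ⊆ τ}
  nonempty_of_mem := fun _ hs => hs.1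
  down := fun s hs t hts ht => ⟨ht, by
    obtain ⟨τ, h1, h2⟩ := hs.2
    exact ⟨τ, h1, hts.trans h2⟩⟩
  sing := by
    rintro ⟨x, l⟩
    refine ⟨Set.singleton_nonempty _, ?_⟩
    rcases l with j | n | i
    · refine ⟨_, Tri.t4 x j.val, ?_⟩
      rw [Set.singleton_subset_iff]
      left
      unfold pX
      have h1 : (j : ℕ) / 3 = 0 := Nat.div_eq_of_lt j.2
      have h2 : (j : ℕ) % 3 = j := Nat.mod_eq_of_lt j.2
      simp [h1, h2]
    · refine ⟨_, Tri.t1 x n.val, ?_⟩
      rw [Set.singleton_subset_iff]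
      left
      unfold pY
      have h1 : (n : ℕ) / (3 * N) = 0 := Nat.div_eq_of_lt n.2
      have h2 : (n : ℕ) % (3 * N) = n := Nat.mod_eq_of_lt n.2
      simp [h1, h2]
    · refine ⟨_, Tri.t1 x i.val, ?_⟩
      rw [Set.singleton_subset_iff]
      right
      right
      unfold pZ
      have h1 : (i : ℕ) / 3 = 0 := Nat.div_eq_of_lt i.2
      have h2 : (i : ℕ) % 3 = i := Nat.mod_eq_of_lt i.2
      simp [h1, h2]
  smul_mem := by
    rintro x s ⟨h1, τ, h2, h3⟩
    refine ⟨h1.image _, (fun a : G × Lab N => (x * a.1, a.2)) '' τ, ?_, ?_⟩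
    · cases h2 with
      | t1 g n =>
        have := Tri.t1 (h := h) (hN := hN) (x * g) n
        rw [Set.image_insert_eq, Set.image_insert_eq, Set.image_singleton, mul_pY, mul_pY, mul_pZ]
        exact this
      | t2 g n =>
        have := Tri.t2 (h := h) (hN := hN) (x * g) n
        rw [Set.image_insert_eq, Set.image_insert_eq, Set.image_singleton, mul_pY, mul_pZ, mul_pZ]
        exact this
      | t3 g j n h1 h2 =>
        have := Tri.t3 (h := h) (hN := hN) (x * g) j n h1 h2
        rw [Set.image_insert_eq, Set.image_insert_eq, Set.image_singleton, mul_pX, mul_pY, mul_pY]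
        exact this
      | t4 g j =>
        have := Tri.t4 (h := h) (hN := hN) (x * g) j
        rw [Set.image_insert_eq, Set.image_insert_eq, Set.image_singleton, mul_pX, mul_pX, mul_pY]
        exact this
    · rintro _ ⟨a, ha, rfl⟩
      exact ⟨a, h3 ha, rfl⟩

theorem tri_face [Finite G] {h : G} {N : ℕ} {hN : 0 < N} {τ : Set (G × Lab N)}
    (hτ : Tri h hN τ) : τ ∈ (KC h hN).faces := by
  refine ⟨?_, τ, hτ, Set.Subset.refl _⟩
  cases hτ <;> exact ⟨_, Or.inl rfl⟩

/-! ### Real displacements -/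

/-- half of the displacement -/
noncomputable def dd {N : ℕ} : Lab N → Lab N → ℝ
  | Sum.inl a, Sum.inl b => if b.val = (a.val + 1) % 3 then 2 * N / 3 else 0
  | Sum.inl a, Sum.inr (Sum.inl n) =>
      if a.val = 2 ∧ n.val = 0 then 2 * N / 3 else 2 * ((n.val : ℝ) - a.val * N) / 3
  | Sum.inr (Sum.inl n), Sum.inr (Sum.inl m) =>
      if m.val = (n.val + 1) % (3 * N) then 2 / 3 else 0
  | Sum.inr (Sum.inl n), Sum.inr (Sum.inr i) => if i.val = n.val % 3 then 0 else -(2 / 3)
  | Sum.inr (Sum.inr i), Sum.inr (Sum.inr k) => if k.val = (i.val + 1) % 3 then 2 / 3 else 0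
  | _, _ => 0

/-- the displacement along an edge -/
noncomputable def DD {N : ℕ} (a b : Lab N) : ℝ := dd a b - dd b a

theorem DD_self {N : ℕ} (a : Lab N) : DD a a = 0 := by
  unfold DD
  ring

theorem DD_symm {N : ℕ} (a b : Lab N) : DD b a = -DD a b := by
  unfold DD
  ring

/-- the position of a vertex orbit -/
noncomputable def pos {N : ℕ} : Lab N → ℝ
  | Sum.inl a => 2 * (a.val * N) / 3
  | Sum.inr (Sum.inl n) => 2 * n.val / 3
  | Sum.inr (Sum.inr i) => 2 * i.val / 3

theorem mod3 (m : ℕ) : m % 3 ≠ ((m % 3 + 1) % 3 + 1) % 3 := by omega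

theorem DXX (h : G) (N : ℕ) (g : G) (m : ℕ) :
    DD (pX h N g m).2 (pX h N g (m + 1)).2 = 2 * N / 3 := by
  unfold DD pX
  simp only [dd]
  rw [if_pos (by omega), if_neg (by omega)]
  ring

theorem DZZ (h : G) (N : ℕ) (g : G) (m : ℕ) :
    DD (pZ h N g m).2 (pZ h N g (m + 1)).2 = 2 / 3 := by
  unfold DD pZ
  simp only [dd]
  rw [if_pos (by omega), if_neg (by omega)]
  ring

theorem DYZ0 (h : G) {N : ℕ} (hN : 0 < N) (g : G) (m : ℕ) :
    DD (pY h hN g m).2 (pZ h N g m).2 = 0 := by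
  unfold DD pY pZ
  simp only [dd]
  rw [if_pos (by rw [Nat.mod_mul_right_mod])]
  ring

theorem DYZ1 (h : G) {N : ℕ} (hN : 0 < N) (g : G) (m : ℕ) :
    DD (pY h hN g (m + 1)).2 (pZ h N g m).2 = -(2 / 3) := by
  unfold DD pY pZ
  simp only [dd]
  rw [if_neg (by rw [Nat.mod_mul_right_mod]; omega)]
  ring

theorem mod_succ_ne {k : ℕ} (hk : 1 < k) (n : ℕ) : n % k ≠ (n + 1) % k := by
  intro h
  have h1 := Nat.sub_mod_eq_zero_of_mod_eq h.symm
  rw [Nat.add_sub_cancel_left, Nat.mod_eq_of_lt hk] at h1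
  exact one_ne_zero h1

theorem DYY (h : G) {N : ℕ} (hN : 0 < N) (g : G) (m : ℕ) :
    DD (pY h hN g m).2 (pY h hN g (m + 1)).2 = 2 / 3 := by
  unfold DD pY
  simp only [dd]
  have h1 : (m + 1) % (3 * N) = (m % (3 * N) + 1) % (3 * N) := by
    rw [Nat.mod_add_mod]
  have h2 : ¬ m % (3 * N) = ((m + 1) % (3 * N) + 1) % (3 * N) := by
    rw [Nat.mod_add_mod]
    intro h3
    have h4 := Nat.sub_mod_eq_zero_of_mod_eq h3.symm
    rw [show m + 1 + 1 - m = 2 by omega, Nat.mod_eq_of_lt (by omega)] at h4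
    omega
  rw [if_pos h1, if_neg h2]
  ring

theorem DXY (h : G) {N : ℕ} (hN : 0 < N) (g : G) (j n : ℕ) (h1 : j * N ≤ n)
    (h2 : n ≤ (j + 1) * N) :
    DD (pX h N g j).2 (pY h hN g n).2 = 2 * n / 3 - 2 * (j * N) / 3 := by
  unfold DD pY pX
  simp only [dd]
  have hj : (j : ℝ) = 3 * (j / 3 : ℕ) + (j % 3 : ℕ) := by
    have := Nat.div_add_mod j 3
    exact_mod_cast this.symm
  have hn : (n : ℝ) = 3 * N * (n / (3 * N) : ℕ) + (n % (3 * N) : ℕ) := by
    have := Nat.div_add_mod n (3 * N)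
    exact_mod_cast this.symm
  set a := j / 3 with ha
  have hja := Nat.div_add_mod j 3
  rw [← ha] at hja
  have hlow : 3 * N * a ≤ n := by
    calc 3 * N * a = (3 * a) * N := by ring
      _ ≤ j * N := Nat.mul_le_mul_right _ (by omega)
      _ ≤ n := h1
  by_cases hc : j % 3 = 2 ∧ n = (j + 1) * N
  · have h3 : n = 3 * N * (a + 1) := by
      rw [hc.2]
      have : j + 1 = 3 * (a + 1) := by omega
      rw [this]
      ring
    have h4 : n % (3 * N) = 0 := by
      rw [h3, Nat.mul_mod_right]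
    rw [if_pos ⟨hc.1, h4⟩]
    have h5 : (n : ℝ) = (j + 1) * N := by
      rw [hc.2]
      push_cast
      ring
    rw [h5]
    ring
  · have hup : n < 3 * N * (a + 1) := by
      by_cases h3 : j % 3 = 2
      · have h4 : n ≠ (j + 1) * N := fun h5 => hc ⟨h3, h5⟩
        have h6 : (j + 1) * N = 3 * N * (a + 1) := by
          have : j + 1 = 3 * (a + 1) := by omega
          rw [this]
          ring
        omega
      · have h4 : j + 1 < 3 * (a + 1) := by omega
        have h5 : (j + 1) * N < 3 * (a + 1) * N := Nat.mul_lt_mul_of_pos_right h4 hN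
        have h6 : 3 * (a + 1) * N = 3 * N * (a + 1) := by ring
        omega
    have hdiv : n / (3 * N) = a :=
      Nat.div_eq_of_lt_le (by rw [mul_comm]; exact hlow) (by rw [mul_comm]; exact hup)
    rw [hdiv] at hn
    have h7 : ¬ (j % 3 = 2 ∧ n % (3 * N) = 0) := by
      rintro ⟨h8, h9⟩
      have h10 : n = 3 * N * a := by
        have := Nat.div_add_mod n (3 * N)
        rw [hdiv, h9] at this
        omega
      have h11 : (3 * a + 2) * N ≤ n := by
        have : 3 * a + 2 = j := by omega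
        rw [this]
        exact h1
      have h12 : (3 * a + 2) * N = 3 * N * a + 2 * N := by ring
      omega
    rw [if_neg h7, hj, hn]
    ring

end Pool.Agent.Q236.XI
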