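import Mathlib

/-!
# Mapping index and cross-index

Definitions for finite `G`-simplicial complexes: geometric realisation, the join `E_k G`, face
poset, barycentric subdivision, mapping index and cross-index.
-/

set_option autoImplicit false

open scoped Pointwise

namespace Pool.Agent.Q236.XI

/-- A finite simplicial complex (on a finite vertex set, all vertices being faces) with an action
of `G` by simplicial automorphisms. -/
structure GCplx (G : Type) [Group G] where
  V : Type
  [fin : Finite V]
  [act : MulAction G V]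
  faces : Set (Set V)
  nonempty_of_mem : ∀ s ∈ faces, s.Nonempty
  down : ∀ s ∈ faces, ∀ t ⊆ s, t.Nonempty → t ∈ faces
  sing : ∀ v, {v} ∈ faces
  smul_mem : ∀ g : G, ∀ s ∈ faces, g • s ∈ faces

attribute [instance] GCplx.fin GCplx.act

variable {G : Type} [Group G]

/-- The geometric realisation, in barycentric coordinates, as a subspace of `V → ℝ`. -/
abbrev GCplx.Real (K : GCplx G) : Type :=
  {x : K.V → ℝ // (∀ v, 0 ≤ x v) ∧ ∑ᶠ v, x v = 1 ∧ Function.support x ∈ K.faces}

theorem support_act (K : GCplx G) (g : G) (x : K.V → ℝ) :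
    Function.support (fun v => x (g⁻¹ • v)) = g • Function.support x := by
  ext v
  rw [Set.mem_smul_set_iff_inv_smul_mem]
  simp [Function.mem_support]

/-- The induced action on the geometric realisation: `(g • x)(v) = x(g⁻¹ • v)`. -/
instance (K : GCplx G) : MulAction G K.Real where
  smul g x := ⟨fun v => x.1 (g⁻¹ • v), fun v => x.2.1 _,
    (finsum_comp_equiv (MulAction.toPerm g⁻¹) (f := x.1)).trans x.2.2.1, by
    rw [support_act]
    exact K.smul_mem g _ x.2.2.2⟩
  one_smul x := by
    apply Subtype.ext
    funext v
    change x.1 ((1 : G)⁻¹ • v) = x.1 v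
    simp
  mul_smul g h x := by
    apply Subtype.ext
    funext v
    change x.1 ((g * h)⁻¹ • v) = x.1 (h⁻¹ • g⁻¹ • v)
    rw [mul_inv_rev, mul_smul]

theorem GCplx.smul_val (K : GCplx G) (g : G) (x : K.Real) (v : K.V) :
    (g • x).1 v = x.1 (g⁻¹ • v) := rfl

/-- The action is free on the geometric realisation. -/
def GCplx.Free (K : GCplx G) : Prop := ∀ g : G, g ≠ 1 → ∀ x : K.Real, g • x ≠ x

/-- The `(k + 1)`-fold join of the discrete space `G`, with the diagonal action: the vertices are
the elements of `k + 1` disjoint copies of `G`, and the simplices are the nonempty sets containing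
at most one element of each copy. -/
def E (G : Type) [Group G] [Finite G] (k : ℕ) : GCplx G where
  V := Fin (k + 1) × G
  act :=
    { smul := fun g a => (a.1, g * a.2)
      one_smul := fun a => by
        change (a.1, 1 * a.2) = a
        simp
      mul_smul := fun g h a => by
        change (a.1, g * h * a.2) = (a.1, g * (h * a.2))
        rw [mul_assoc] }
  faces := {s | s.Nonempty ∧ ∀ a ∈ s, ∀ b ∈ s, a.1 = b.1 → a = b}
  nonempty_of_mem := fun _ hs => hs.1
  down := fun _ hs t hts ht => ⟨ht, fun a ha b hb => hs.2 a (hts ha) b (hts hb)⟩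
  sing := fun v => ⟨Set.singleton_nonempty v, by
    intro a ha b hb _
    rw [Set.mem_singleton_iff] at ha hb
    rw [ha, hb]⟩
  smul_mem := by
    rintro g s ⟨hs1, hs2⟩
    refine ⟨hs1.image _, ?_⟩
    rintro _ ⟨a, ha, rfl⟩ _ ⟨b, hb, rfl⟩ hab
    have : a = b := hs2 a ha b hb hab
    rw [this]

/-- The mapping index: the least `k` for which there is a continuous equivariant map from the
realisation of `K` to `E_k G` (`⊤` if there is none). -/
noncomputable def ind [Finite G] (K : GCplx G) : ℕ∞ :=
  ⨅ k : {k : ℕ // ∃ f : K.Real → (E G k).Real,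
      Continuous f ∧ ∀ (g : G) (x : K.Real), f (g • x) = g • f x},
    ((k : ℕ) : ℕ∞)

/-- The face poset: the simplices, ordered by inclusion. -/
abbrev GCplx.F (K : GCplx G) : Type := {s : Set K.V // s ∈ K.faces}

instance (K : GCplx G) : MulAction G K.F where
  smul g s := ⟨g • s.1, K.smul_mem g _ s.2⟩
  one_smul s := Subtype.ext (one_smul G s.1)
  mul_smul g h s := Subtype.ext (mul_smul g h s.1)

theorem GCplx.F_smul_val (K : GCplx G) (g : G) (s : K.F) : (g • s).1 = g • s.1 := rfl

/-- The cross-index of a `G`-poset `P`: the least `n` for which there is an order preserving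
equivariant map from `P` to `Q_n G`, the poset on `G × {0, …, n}` with `(g, i) < (h, j)` iff
`i < j` and the action on the first coordinate (`⊤` if there is none). -/
noncomputable def Xind (G : Type) [Group G] (P : Type) [PartialOrder P] [MulAction G P] : ℕ∞ :=
  ⨅ n : {n : ℕ // ∃ f : P → G × Fin (n + 1),
      (∀ s t, s ≤ t → f s = f t ∨ (f s).2 < (f t).2) ∧
      ∀ (g : G) (s : P), f (g • s) = (g * (f s).1, (f s).2)},
    ((n : ℕ) : ℕ∞)

/-- The barycentric subdivision: the order complex of the face poset. -/
def GCplx.sd (K : GCplx G) : GCplx G where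
  V := K.F
  faces := {c | c.Nonempty ∧ IsChain (· ≤ ·) c}
  nonempty_of_mem := fun _ hs => hs.1
  down := fun _ hs t hts ht => ⟨ht, hs.2.mono hts⟩
  sing := fun v => ⟨Set.singleton_nonempty v, Set.subsingleton_singleton.isChain⟩
  smul_mem := by
    rintro g s ⟨hs1, hs2⟩
    refine ⟨hs1.image _, ?_⟩
    rintro _ ⟨a, ha, rfl⟩ _ ⟨b, hb, rfl⟩ _
    rcases hs2.total ha hb with h | h
    · left
      exact Set.smul_set_mono h
    · right
      exact Set.smul_set_mono h

end Pool.Agent.Q236.XI
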