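import Pool.Agent.Q236.XI.Cplx

/-!
# Mapping index of the complex and a lower bound for the cross-index of its subdivisions
-/

set_option autoImplicit false

open scoped Pointwise

namespace Pool.Agent.Q236.XI

variable {G : Type} [Group G] [Finite G]

/-- the vertex `v` lies over the point `R` of the line, in the translate by `g` -/
def LiftP (h : G) {N : ℕ} (g : G) (R : ℝ) (v : G × Lab N) : Prop :=
  ∀ t : ℝ, v.1 • gamR h (pos v.2 + t) = g • gamR h (R + t)

theorem liftX (h : G) {N : ℕ} (hh : h ^ N = h) (g : G) (m : ℕ) :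
    LiftP h g (2 * (m * N) / 3) (pX h N g m) := by
  intro t
  unfold pX pos
  simp only
  have hm : (m : ℝ) = 3 * (m / 3 : ℕ) + (m % 3 : ℕ) := by
    have := Nat.div_add_mod m 3
    exact_mod_cast this.symm
  have e : 2 * ((m : ℝ) * N) / 3 + t =
      2 * (((m % 3 : ℕ) : ℝ) * N) / 3 + t + 2 * ((N * (m / 3) : ℕ) : ℝ) := by
    rw [hm]
    push_cast
    ring
  rw [e, gamR_add_two_mul, pow_mul, hh, mul_smul]

theorem liftY (h : G) {N : ℕ} (hN : 0 < N) (hh : h ^ N = h) (g : G) (m : ℕ) :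
    LiftP h g (2 * m / 3) (pY h hN g m) := by
  intro t
  unfold pY pos
  simp only
  have hm : (m : ℝ) = 3 * N * (m / (3 * N) : ℕ) + (m % (3 * N) : ℕ) := by
    have := Nat.div_add_mod m (3 * N)
    exact_mod_cast this.symm
  have e : 2 * (m : ℝ) / 3 + t =
      2 * ((m % (3 * N) : ℕ) : ℝ) / 3 + t + 2 * ((N * (m / (3 * N)) : ℕ) : ℝ) := by
    rw [hm]
    push_cast
    ring
  rw [e, gamR_add_two_mul, pow_mul, hh, mul_smul]

theorem liftZ (h : G) (N : ℕ) (g : G) (m : ℕ) :
    LiftP h g (2 * m / 3) (pZ h N g m) := by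
  intro t
  unfold pZ pos
  simp only
  have hm : (m : ℝ) = 3 * (m / 3 : ℕ) + (m % 3 : ℕ) := by
    have := Nat.div_add_mod m 3
    exact_mod_cast this.symm
  have e : 2 * (m : ℝ) / 3 + t =
      2 * ((m % 3 : ℕ) : ℝ) / 3 + t + 2 * ((m / 3 : ℕ) : ℝ) := by
    rw [hm]
    ring
  rw [e, gamR_add_two_mul, mul_smul]

theorem coh_of_triple {h : G} {N : ℕ} {g : G} {a b c : G × Lab N} {Ra Rb Rc : ℝ}
    (ha : LiftP h g Ra a) (hb : LiftP h g Rb b) (hc : LiftP h g Rc c)
    (hab : DD a.2 b.2 = Rb - Ra) (hac : DD a.2 c.2 = Rc - Ra) (hbc : DD b.2 c.2 = Rc - Rb) :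
    ∀ v ∈ ({a, b, c} : Set (G × Lab N)), ∀ w ∈ ({a, b, c} : Set (G × Lab N)),
      (∀ t : ℝ, v.1 • gamR h (pos v.2 + DD v.2 w.2 + t) = w.1 • gamR h (pos w.2 + t)) ∧
        ∀ u ∈ ({a, b, c} : Set (G × Lab N)), DD v.2 w.2 + DD w.2 u.2 = DD v.2 u.2 := by
  have hlift : ∀ v ∈ ({a, b, c} : Set (G × Lab N)), ∃ R, LiftP h g R v ∧
      DD v.2 a.2 = Ra - R ∧ DD v.2 b.2 = Rb - R ∧ DD v.2 c.2 = Rc - R := by
    intro v hv
    rcases hv with rfl | rfl | hv
    · exact ⟨Ra, ha, by rw [DD_self]; ring, hab, hac⟩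
    · exact ⟨Rb, hb, by rw [DD_symm, hab]; ring, by rw [DD_self]; ring, hbc⟩
    · rw [Set.mem_singleton_iff] at hv
      subst hv
      exact ⟨Rc, hc, by rw [DD_symm, hac]; ring, by rw [DD_symm, hbc]; ring,
        by rw [DD_self]; ring⟩
  have hpair : ∀ v ∈ ({a, b, c} : Set (G × Lab N)), ∀ w ∈ ({a, b, c} : Set (G × Lab N)),
      ∀ R R', LiftP h g R v → DD v.2 a.2 = Ra - R → DD v.2 b.2 = Rb - R → DD v.2 c.2 = Rc - R →
        DD w.2 a.2 = Ra - R' → DD w.2 b.2 = Rb - R' → DD w.2 c.2 = Rc - R' →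
        DD v.2 w.2 = R' - R := by
    intro v hv w hw R R' _ h1 h2 h3 h4 h5 h6
    rcases hw with rfl | rfl | hw
    · rw [DD_self] at h4
      linarith
    · rw [DD_self] at h5
      linarith
    · rw [Set.mem_singleton_iff] at hw
      subst hw
      rw [DD_self] at h6
      linarith
  intro v hv w hw
  obtain ⟨R, l1, l2, l3, l4⟩ := hlift v hv
  obtain ⟨R', m1, m2, m3, m4⟩ := hlift w hw
  have hvw := hpair v hv w hw R R' l1 l2 l3 l4 m2 m3 m4
  refine ⟨?_, ?_⟩
  · intro t
    rw [add_assoc, l1, m1, hvw]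
    congr 2
    ring
  · intro u hu
    obtain ⟨R'', n1, n2, n3, n4⟩ := hlift u hu
    rw [hvw, hpair v hv u hu R R'' l1 l2 l3 l4 n2 n3 n4,
      hpair w hw u hu R' R'' m1 m2 m3 m4 n2 n3 n4]
    ring

theorem coh_tri {h : G} {N : ℕ} (hN : 0 < N) (hh : h ^ N = h) {τ : Set (G × Lab N)}
    (hτ : Tri h hN τ) : ∀ v ∈ τ, ∀ w ∈ τ,
      (∀ t : ℝ, v.1 • gamR h (pos v.2 + DD v.2 w.2 + t) = w.1 • gamR h (pos w.2 + t)) ∧
        ∀ u ∈ τ, DD v.2 w.2 + DD w.2 u.2 = DD v.2 u.2 := by
  cases hτ with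
  | t1 g n =>
    apply coh_of_triple (liftY h hN hh g n) (liftY h hN hh g (n + 1)) (liftZ h N g n)
    · rw [DYY]
      push_cast
      ring
    · rw [DYZ0]
      ring
    · rw [DYZ1]
      push_cast
      ring
  | t2 g n =>
    apply coh_of_triple (liftY h hN hh g (n + 1)) (liftZ h N g n) (liftZ h N g (n + 1))
    · rw [DYZ1]
      push_cast
      ring
    · rw [DYZ0]
      ring
    · rw [DZZ]
      push_cast
      ring
  | t3 g j n h1 h2 =>
    apply coh_of_triple (liftX h hh g j) (liftY h hN hh g n) (liftY h hN hh g (n + 1))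
    · rw [DXY h hN g j n h1 h2.le]
    · rw [DXY h hN g j (n + 1) (by omega) (by omega)]
    · rw [DYY]
      push_cast
      ring
  | t4 g j =>
    apply coh_of_triple (liftX h hh g j) (liftX h hh g (j + 1)) (liftY h hN hh g ((j + 1) * N))
    · rw [DXX]
      push_cast
      ring
    · rw [DXY h hN g j ((j + 1) * N) (Nat.mul_le_mul_right _ (by omega)) le_rfl]
    · rw [DXY h hN g (j + 1) ((j + 1) * N) le_rfl (Nat.mul_le_mul_right _ (by omega))]

theorem KC_map (h : G) {N : ℕ} (hN : 0 < N) (hh : h ^ N = h) :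
    ∃ f : (KC h hN).Real → (E G 1).Real, Continuous f ∧
      ∀ (g : G) (x : (KC h hN).Real), f (g • x) = g • f x := by
  apply exists_map (KC h hN) h (fun v => v.1) (fun v => pos v.2) (fun v w => DD v.2 w.2)
  · intro x v
    exact ⟨rfl, rfl⟩
  · intro x v w
    rfl
  · rintro s ⟨_, τ, hτ, hs⟩ v hv w hw
    obtain ⟨h1, h2⟩ := coh_tri hN hh hτ v (hs hv) w (hs hw)
    exact ⟨h1, fun u hu => h2 u (hs hu)⟩

theorem tri_inj {h : G} {N : ℕ} (hN : 0 < N) {τ : Set (G × Lab N)}
    (hτ : Tri h hN τ) : ∀ v ∈ τ, ∀ w ∈ τ, v.2 = w.2 → v = w := by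
  have key : ∀ a b c : G × Lab N, a.2 ≠ b.2 → a.2 ≠ c.2 → b.2 ≠ c.2 →
      ∀ v ∈ ({a, b, c} : Set (G × Lab N)), ∀ w ∈ ({a, b, c} : Set (G × Lab N)),
        v.2 = w.2 → v = w := by
    intro a b c hab hac hbc v hv w hw hvw
    simp only [Set.mem_insert_iff, Set.mem_singleton_iff] at hv hw
    rcases hv with rfl | rfl | rfl <;> rcases hw with rfl | rfl | rfl
    · rfl
    · exact absurd hvw hab
    · exact absurd hvw hac
    · exact absurd hvw.symm hab
    · rfl
    · exact absurd hvw hbc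
    · exact absurd hvw.symm hac
    · exact absurd hvw.symm hbc
    · rfl
  have hY : ∀ (g : G) (n : ℕ), (pY h hN g n).2 ≠ (pY h hN g (n + 1)).2 := by
    intro g n h1
    have := DYY h hN g n
    rw [h1, DD_self] at this
    norm_num at this
  have hX : ∀ (g : G) (n : ℕ), (pX h N g n).2 ≠ (pX h N g (n + 1)).2 := by
    intro g n h1
    have := DXX h N g n
    rw [h1, DD_self] at this
    have h2 : (0 : ℝ) < N := by exact_mod_cast hN
    have h3 : (0 : ℝ) < 2 * N / 3 := by positivity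
    linarith
  have hZ : ∀ (g : G) (n : ℕ), (pZ h N g n).2 ≠ (pZ h N g (n + 1)).2 := by
    intro g n h1
    have := DZZ h N g n
    rw [h1, DD_self] at this
    norm_num at this
  cases hτ with
  | t1 g n =>
    exact key _ _ _ (hY g n) (by unfold pY pZ; simp) (by unfold pY pZ; simp)
  | t2 g n =>
    exact key _ _ _ (by unfold pY pZ; simp) (by unfold pY pZ; simp) (hZ g n)
  | t3 g j n h1 h2 =>
    exact key _ _ _ (by unfold pX pY; simp) (by unfold pX pY; simp) (hY g n)
  | t4 g j =>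
    exact key _ _ _ (hX g j) (by unfold pX pY; simp) (by unfold pX pY; simp)

theorem KC_free (h : G) {N : ℕ} (hN : 0 < N) : (KC h hN).Free := by
  intro g hg x hx
  obtain ⟨v, hv⟩ := (KC h hN).nonempty_of_mem _ x.2.2.2
  obtain ⟨_, τ, hτ, hs⟩ := x.2.2.2
  have h1 : g • v ∈ Function.support x.1 := by
    rw [Function.mem_support, ← hx, GCplx.smul_val, inv_smul_smul]
    exact hv
  have h2 := tri_inj hN hτ v (hs hv) (g • v) (hs h1) rfl
  apply hg
  have h3 : v.1 = g * v.1 := congrArg Prod.fst h2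
  exact (mul_eq_right.mp h3.symm)

/-- vertices of the first circle -/
def vX (h : G) {N : ℕ} (hN : 0 < N) (m : ℕ) : (KC h hN).V := pX h N 1 m

/-- vertices of the second circle -/
def vY (h : G) {N : ℕ} (hN : 0 < N) (m : ℕ) : (KC h hN).V := pY h hN 1 m

/-- vertices of the third circle -/
def vZ (h : G) {N : ℕ} (hN : 0 < N) (m : ℕ) : (KC h hN).V := pZ h N 1 m

theorem smul_pX (h : G) {N : ℕ} (hN : 0 < N) (m : ℕ) : h • vX h hN m = vX h hN (m + 3) := by
  change ((h * (pX h N 1 m).1, (pX h N 1 m).2) : G × Lab N) = pX h N 1 (m + 3)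
  unfold pX
  simp only [one_mul, Nat.add_div_right m (by norm_num : 0 < 3), Nat.add_mod_right]
  rw [pow_succ']

theorem smul_pZ (h : G) {N : ℕ} (hN : 0 < N) (m : ℕ) : h • vZ h hN m = vZ h hN (m + 3) := by
  change ((h * (pZ h N 1 m).1, (pZ h N 1 m).2) : G × Lab N) = pZ h N 1 (m + 3)
  unfold pZ
  simp only [one_mul, Nat.add_div_right m (by norm_num : 0 < 3), Nat.add_mod_right]
  rw [pow_succ']

theorem smul_pY (h : G) {N : ℕ} (hN : 0 < N) (m : ℕ) :
    h • vY h hN m = vY h hN (m + 3 * N) := by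
  change ((h * (pY h hN 1 m).1, (pY h hN 1 m).2) : G × Lab N) = pY h hN 1 (m + 3 * N)
  unfold pY
  simp only [one_mul, Nat.add_div_right m (by omega : 0 < 3 * N), Nat.add_mod_right]
  rw [pow_succ']

theorem smul_pZ' (h : G) {N : ℕ} (hN : 0 < N) (hh : h ^ N = h) :
    h • vZ h hN 0 = vZ h hN (3 * N) := by
  change ((h * (pZ h N 1 0).1, (pZ h N 1 0).2) : G × Lab N) = pZ h N 1 (3 * N)
  unfold pZ
  simp [hh]

theorem count (h : G) (h1 : h ≠ 1) {N : ℕ} (hN : 0 < N) (hh : h ^ N = h) {B : ℤ}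
    (H : Good h (orderOf h) (KC h hN) B) : (N : ℤ) ≤ 3 * B := by
  obtain ⟨lam, c, hlam, hc⟩ := H
  set X : ℕ → (KC h hN).V := fun m => vX h hN m with hX
  set Y : ℕ → (KC h hN).V := fun m => vY h hN m with hY
  set Z : ℕ → (KC h hN).V := fun m => vZ h hN m with hZ
  have sX : ∀ m, h • X m = X (m + 3) := smul_pX h hN
  have sY : ∀ m, h • Y m = Y (m + 3 * N) := smul_pY h hN
  have sZ : ∀ m, h • Z m = Z (m + 3) := smul_pZ h hN
  have sZ' : h • Z 0 = Z (3 * N) := smul_pZ' h hN hh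
  have f1 : ∀ n, ({Y n, Y (n + 1), Z n} : Set (KC h hN).V) ∈ (KC h hN).faces :=
    fun n => tri_face (Tri.t1 1 n)
  have f2 : ∀ n, ({Y (n + 1), Z n, Z (n + 1)} : Set (KC h hN).V) ∈ (KC h hN).faces :=
    fun n => tri_face (Tri.t2 1 n)
  have f3 : ∀ j n, j * N ≤ n → n < (j + 1) * N →
      ({X j, Y n, Y (n + 1)} : Set (KC h hN).V) ∈ (KC h hN).faces :=
    fun j n a b => tri_face (Tri.t3 1 j n a b)
  have f4 : ∀ j, ({X j, X (j + 1), Y ((j + 1) * N)} : Set (KC h hN).V) ∈ (KC h hN).faces :=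
    fun j => tri_face (Tri.t4 1 j)
  -- first telescoping
  have tele : ∀ M, ∑ n ∈ Finset.range M, c (Y n) (Y (n + 1)) =
      c (Y 0) (Z 0) - c (Y M) (Z M) + ∑ n ∈ Finset.range M, c (Z n) (Z (n + 1)) := by
    intro M
    induction M with
    | zero => simp
    | succ M ih =>
      rw [Finset.sum_range_succ, Finset.sum_range_succ, ih]
      have a1 := (hc _ (f1 M) (Y M) (Or.inl rfl) (Y (M + 1)) (Or.inr (Or.inl rfl))).2.2.2 (Z M)
        (Or.inr (Or.inr rfl))
      have a2 := (hc _ (f2 M) (Y (M + 1)) (Or.inl rfl) (Z M) (Or.inr (Or.inl rfl))).2.2.2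
        (Z (M + 1)) (Or.inr (Or.inr rfl))
      linarith
  have iYZ : c (Y (3 * N)) (Z (3 * N)) = c (Y 0) (Z 0) := by
    rw [← sZ']
    have : Y (3 * N) = h • Y 0 := by rw [sY, zero_add]
    rw [this]
    exact (hc _ (f1 0) (Y 0) (Or.inl rfl) (Z 0) (Or.inr (Or.inr rfl))).2.2.1
  have perZ : ∀ n, c (Z (n + 3)) (Z (n + 3 + 1)) = c (Z n) (Z (n + 1)) := by
    intro n
    have e : n + 3 + 1 = n + 1 + 3 := by ring
    rw [e, ← sZ, ← sZ]
    exact (hc _ (f2 n) (Z n) (Or.inr (Or.inl rfl)) (Z (n + 1)) (Or.inr (Or.inr rfl))).2.2.1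
  have perZ' : ∀ k i, c (Z (3 * k + i)) (Z (3 * k + i + 1)) = c (Z i) (Z (i + 1)) := by
    intro k
    induction k with
    | zero => intro i; simp
    | succ k ih =>
      intro i
      rw [← ih i, ← perZ (3 * k + i)]
      congr 2 <;> ring
  have sumZ : ∀ k : ℕ, ∑ n ∈ Finset.range (3 * k), c (Z n) (Z (n + 1)) =
      k * ∑ n ∈ Finset.range 3, c (Z n) (Z (n + 1)) := by
    intro k
    induction k with
    | zero => simp
    | succ k ih =>
      rw [show 3 * (k + 1) = 3 * k + 1 + 1 + 1 by ring, Finset.sum_range_succ,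
        Finset.sum_range_succ, Finset.sum_range_succ, ih]
      have p0 := perZ' k 0
      have p1 := perZ' k 1
      have p2 := perZ' k 2
      simp only [Finset.sum_range_succ, Finset.sum_range_zero]
      simp only [add_zero] at p0
      rw [p0, p1]
      rw [show 3 * k + 1 + 1 = 3 * k + 2 by ring, p2]
      push_cast
      ring
  -- the blocks
  have block : ∀ j M, j * N ≤ M → M ≤ (j + 1) * N →
      ∑ n ∈ Finset.range M, c (Y n) (Y (n + 1)) =
        ∑ n ∈ Finset.range (j * N), c (Y n) (Y (n + 1)) + c (X j) (Y M) - c (X j) (Y (j * N)) := by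
    intro j M hM
    induction M, hM using Nat.le_induction with
    | base => intro _; ring
    | succ M hM ih =>
      intro hM2
      rw [Finset.sum_range_succ, ih (by omega)]
      have a1 := (hc _ (f3 j M hM (by omega)) (X j) (Or.inl rfl) (Y M)
        (Or.inr (Or.inl rfl))).2.2.2 (Y (M + 1)) (Or.inr (Or.inr rfl))
      linarith
  have block' : ∀ j, ∑ n ∈ Finset.range ((j + 1) * N), c (Y n) (Y (n + 1)) =
      ∑ n ∈ Finset.range (j * N), c (Y n) (Y (n + 1)) + c (X j) (X (j + 1)) +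
        c (X (j + 1)) (Y ((j + 1) * N)) - c (X j) (Y (j * N)) := by
    intro j
    rw [block j ((j + 1) * N) (Nat.mul_le_mul_right _ (by omega)) le_rfl]
    have a1 := (hc _ (f4 j) (X j) (Or.inl rfl) (X (j + 1)) (Or.inr (Or.inl rfl))).2.2.2
      (Y ((j + 1) * N)) (Or.inr (Or.inr rfl))
    linarith
  have sumX : ∑ n ∈ Finset.range (3 * N), c (Y n) (Y (n + 1)) =
      c (X 0) (X 1) + c (X 1) (X 2) + c (X 2) (X 3) := by
    have b0 := block' 0
    have b1 := block' 1
    have b2 := block' 2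
    simp only [zero_mul, Finset.sum_range_zero, zero_add, one_mul, one_add_one_eq_two] at b0 b1
    rw [show 2 + 1 = 3 by norm_num] at b2
    have e1 : c (X 3) (Y (3 * N)) = c (X 0) (Y 0) := by
      have h5 : X 3 = h • X 0 := by rw [sX, zero_add]
      have h6 : Y (3 * N) = h • Y 0 := by rw [sY, zero_add]
      rw [h5, h6]
      exact (hc _ (f3 0 0 (by simp) (by simpa using hN)) (X 0) (Or.inl rfl) (Y 0)
        (Or.inr (Or.inl rfl))).2.2.1
    linarith
  have main : (N : ℤ) * ∑ n ∈ Finset.range 3, c (Z n) (Z (n + 1)) =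
      c (X 0) (X 1) + c (X 1) (X 2) + c (X 2) (X 3) := by
    rw [← sumX, tele, iYZ, sumZ]
    ring
  have bX : ∀ j, |c (X j) (X (j + 1))| ≤ B :=
    fun j => (hc _ (f4 j) (X j) (Or.inl rfl) (X (j + 1)) (Or.inr (Or.inl rfl))).2.1
  have hmod : ((∑ n ∈ Finset.range 3, c (Z n) (Z (n + 1)) : ℤ) : ZMod (orderOf h)) = 1 := by
    have a : ∀ n, ((c (Z n) (Z (n + 1)) : ℤ) : ZMod (orderOf h)) = lam (Z (n + 1)) - lam (Z n) :=
      fun n => (hc _ (f2 n) (Z n) (Or.inr (Or.inl rfl)) (Z (n + 1)) (Or.inr (Or.inr rfl))).1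
    rw [Int.cast_sum, Finset.sum_congr rfl (fun n _ => a n),
      Finset.sum_range_sub (fun n => lam (Z n)) 3]
    have h7 : lam (Z 3) = lam (Z 0) + 1 := by
      rw [← hlam (Z 0), sZ, zero_add]
    rw [h7]
    ring
  have hne : ∑ n ∈ Finset.range 3, c (Z n) (Z (n + 1)) ≠ 0 := by
    intro h0
    rw [h0, Int.cast_zero] at hmod
    have h2 : (1 : ZMod (orderOf h)) = 0 := hmod.symm
    have h3 : ((1 : ℕ) : ZMod (orderOf h)) = 0 := by rw [Nat.cast_one]; exact h2
    rw [ZMod.natCast_eq_zero_iff, Nat.dvd_one, orderOf_eq_one_iff] at h3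
    exact h1 h3
  have h4 : 1 ≤ |∑ n ∈ Finset.range 3, c (Z n) (Z (n + 1))| := Int.one_le_abs hne
  have h5 : (N : ℤ) ≤ |(N : ℤ) * ∑ n ∈ Finset.range 3, c (Z n) (Z (n + 1))| := by
    rw [abs_mul, Nat.abs_cast]
    nlinarith [Int.natCast_nonneg N]
  rw [main] at h5
  have b0 := bX 0
  have b1 := bX 1
  have b2 := bX 2
  have h6 := abs_add_le (c (X 0) (X 1) + c (X 1) (X 2)) (c (X 2) (X 3))
  have h7 := abs_add_le (c (X 0) (X 1)) (c (X 1) (X 2))
  simp only [zero_add, one_add_one_eq_two] at b0 b1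
  rw [show 2 + 1 = 3 by norm_num] at b2
  linarith

/-! ### Upper bound for the cross-index -/

/-- the action is free on simplices, which have at most three vertices -/
def FreeF (K : GCplx G) : Prop :=
  (∀ g : G, g ≠ 1 → ∀ s : K.F, g • s ≠ s) ∧ ∀ s : K.F, s.1.ncard ≤ 3

theorem ncard_smul (K : GCplx G) (g : G) (s : Set K.V) : (g • s).ncard = s.ncard :=
  Set.ncard_image_of_injective s (MulAction.injective g)

theorem FreeF.sd {K : GCplx G} (H : FreeF K) : FreeF K.sd := by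
  constructor
  · rintro g hg ⟨c, ⟨s, hs⟩, hc⟩ heq
    have h1 : g • c = c := congrArg Subtype.val heq
    have h2 : g • s ∈ c := by
      rw [← h1]
      exact Set.smul_mem_smul_set hs
    apply H.1 g hg s
    apply Subtype.ext
    rcases hc.total h2 hs with h3 | h3
    · exact Set.eq_of_subset_of_ncard_le h3 (ncard_smul K g s.1).ge (Set.toFinite _)
    · exact (Set.eq_of_subset_of_ncard_le h3 (ncard_smul K g s.1).le (Set.toFinite _)).symm
  · rintro ⟨c, hc1, hc⟩
    change c.ncard ≤ 3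
    have h1 : (Finset.Icc 1 3 : Set ℕ).ncard = 3 := by
      rw [Set.ncard_coe_finset]
      rfl
    rw [← h1]
    apply Set.ncard_le_ncard_of_injOn (fun s : K.F => s.1.ncard)
    · intro s _
      rw [Finset.mem_coe, Finset.mem_Icc]
      refine ⟨?_, H.2 s⟩
      have := (Set.ncard_pos (Set.toFinite s.1)).mpr (K.nonempty_of_mem s.1 s.2)
      exact this
    · intro s hs t ht hst
      have hst' : s.1.ncard = t.1.ncard := hst
      apply Subtype.ext
      rcases hc.total hs ht with h3 | h3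
      · exact Set.eq_of_subset_of_ncard_le h3 hst'.ge (Set.toFinite _)
      · exact (Set.eq_of_subset_of_ncard_le h3 hst'.le (Set.toFinite _)).symm

theorem FreeF.iter {K : GCplx G} (H : FreeF K) (r : ℕ) : FreeF (GCplx.sd^[r] K) := by
  induction r with
  | zero => exact H
  | succ r ih =>
    rw [Function.iterate_succ_apply']
    exact ih.sd

theorem FreeF.exists_choice {K : GCplx G} (H : FreeF K) :
    ∃ a : K.F → G, ∀ (g : G) (s : K.F), a (g • s) = g * a s := by
  have hex : ∀ s : K.F, ∃ g : G, g • (Quotient.mk (MulAction.orbitRel G K.F) s).out = s := by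
    intro s
    have h1 : (MulAction.orbitRel G K.F) s (Quotient.mk (MulAction.orbitRel G K.F) s).out :=
      (MulAction.orbitRel G K.F).symm (Quotient.exact (Quotient.out_eq _))
    rw [MulAction.orbitRel_apply, MulAction.mem_orbit_iff] at h1
    exact h1
  choose a ha using hex
  refine ⟨a, fun g s => ?_⟩
  have h1 : Quotient.mk (MulAction.orbitRel G K.F) (g • s) =
      Quotient.mk (MulAction.orbitRel G K.F) s := by
    apply Quotient.sound
    change (MulAction.orbitRel G K.F) (g • s) s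
    rw [MulAction.orbitRel_apply]
    exact MulAction.mem_orbit _ _
  have h2 := ha (g • s)
  rw [h1] at h2
  set o := (Quotient.mk (MulAction.orbitRel G K.F) s).out with ho
  have h3 : (g * a s) • o = g • s := by rw [mul_smul, ha s]
  have h4 : ((g * a s)⁻¹ * a (g • s)) • o = o := by
    rw [mul_smul, h2, ← h3, inv_smul_smul]
  by_contra hcon
  apply H.1 ((g * a s)⁻¹ * a (g • s)) _ o h4
  intro h5
  apply hcon
  rw [inv_mul_eq_one] at h5
  exact h5.symm

theorem FreeF.Xind_le {K : GCplx G} (H : FreeF K) : Xind G K.F ≤ 2 := by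
  obtain ⟨a, ha⟩ := H.exists_choice
  have h1 : ∀ s : K.F, s.1.ncard - 1 < 2 + 1 := by
    intro s
    have := H.2 s
    omega
  have hpos : ∀ s : K.F, 0 < s.1.ncard := fun s =>
    (Set.ncard_pos (Set.toFinite s.1)).mpr (K.nonempty_of_mem s.1 s.2)
  refine iInf_le_of_le ⟨2, fun s => (a s, ⟨s.1.ncard - 1, h1 s⟩), ?_, ?_⟩ le_rfl
  · intro s t hst
    rcases Nat.lt_or_ge s.1.ncard t.1.ncard with h2 | h2
    · right
      rw [Fin.lt_def]
      have := hpos s
      simp only
      omega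
    · left
      have : s = t := Subtype.ext (Set.eq_of_subset_of_ncard_le hst h2 (Set.toFinite _))
      rw [this]
  · intro g s
    have h2 : (g • s).1.ncard = s.1.ncard := ncard_smul K g s.1
    simp only [ha, h2]

theorem KC_freeF (h : G) {N : ℕ} (hN : 0 < N) : FreeF (KC h hN) := by
  constructor
  · rintro g hg ⟨s, hs⟩ heq
    obtain ⟨⟨(v : (KC h hN).V), hv⟩, τ, hτ, hsτ⟩ := hs
    have h1 : g • s = s := congrArg Subtype.val heq
    have h2 : g • (v : (KC h hN).V) ∈ s := by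
      rw [← h1]
      exact Set.smul_mem_smul_set hv
    have h3 := tri_inj hN hτ v (hsτ hv) _ (hsτ h2) rfl
    apply hg
    have h4 : v.1 = g * v.1 := congrArg Prod.fst h3
    exact (mul_eq_right.mp h4.symm)
  · rintro ⟨s, _, τ, hτ, hs⟩
    change s.ncard ≤ 3
    have h3 : ∀ a b c : G × Lab N, ({a, b, c} : Set (G × Lab N)).ncard ≤ 3 := by
      intro a b c
      have e1 := Set.ncard_insert_le a ({b, c} : Set (G × Lab N))
      have e2 := Set.ncard_insert_le b ({c} : Set (G × Lab N))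
      rw [Set.ncard_singleton] at e2
      omega
    refine (Set.ncard_le_ncard hs (Set.toFinite _)).trans ?_
    cases hτ <;> exact h3 _ _ _

theorem main (G : Type) [Group G] [Finite G] [Nontrivial G] (r : ℕ) :
    ∃ K : GCplx G, K.Free ∧ ind K ≤ 1 ∧ Xind G (GCplx.sd^[r] K).F = 2 := by
  obtain ⟨h, h1⟩ := exists_ne (1 : G)
  set p := orderOf h with hp
  set M : ℕ := 3 * (2 ^ (r + 1) * p) with hM
  set N : ℕ := M * p + p + 1 with hNdef
  have hN : 0 < N := by omega
  have hh : h ^ N = h := by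
    have : N = p * (M + 1) + 1 := by rw [hNdef]; ring
    rw [this, pow_succ, pow_mul, hp, pow_orderOf_eq_one, one_pow, one_mul]
  have hp0 : 0 < p := orderOf_pos h
  refine ⟨KC h hN, KC_free h hN, ?_, ?_⟩
  · exact iInf_le_of_le ⟨1, KC_map h hN hh⟩ le_rfl
  · apply le_antisymm
    · exact ((KC_freeF h hN).iter r).Xind_le
    · apply le_iInf
      rintro ⟨n, f, hf1, hf2⟩
      by_contra hcon
      have hn : n ≤ 1 := by
        by_contra h3
        apply hcon
        have h4 : 2 ≤ n := by omega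
        exact_mod_cast h4
      have g1 := good_of_map h (GCplx.sd^[r] (KC h hN)) n hn f hf1 hf2
      have g2 := g1.descend
      have g3 := Good.iter r g2
      have g4 := count h h1 hN hh g3
      have g5 : (N : ℤ) ≤ (M : ℤ) := by
        rw [hM]
        push_cast
        calc (N : ℤ) ≤ 3 * (2 ^ r * (2 * (orderOf h : ℤ))) := g4
          _ = 3 * (2 ^ (r + 1) * (p : ℤ)) := by rw [hp]; ring
      have g6 : N ≤ M := by exact_mod_cast g5
      have g7 : M ≤ M * p := Nat.le_mul_of_pos_right M hp0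
      omega

end Pool.Agent.Q236.XI
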